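import Pool.Agent.H79.Asym4

/-! The first Betti number of almost symmetric, nearly Gorenstein numerical semigroup rings of
embedding dimension eight is unbounded. -/

set_option autoImplicit false

namespace Pool.Agent.Results.MP_36a309_al.BettiUnbounded

open Pool.Agent.H79.Asym CategoryTheory MonoidalCategory

universe u

/-- The semigroup viewed inside the integers. -/
def toZ (S : AddSubmonoid ℕ) : Set ℤ := ((↑) : ℕ → ℤ) '' (S : Set ℕ)

/-- The minimal generators: nonzero elements that are not a sum of two nonzero elements. -/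
def minGens (S : AddSubmonoid ℕ) : Set ℕ :=
  {s : ℕ | s ∈ S ∧ s ≠ 0 ∧ ¬ ∃ a ∈ S, ∃ b ∈ S, a ≠ 0 ∧ b ≠ 0 ∧ a + b = s}

/-- The pseudo-Frobenius numbers. -/
def PF (S : AddSubmonoid ℕ) : Set ℤ := {x | x ∉ toZ S ∧ ∀ s ∈ S, s ≠ 0 → x + (s : ℤ) ∈ toZ S}

/-- `S` is almost symmetric, `F` being its Frobenius number. -/
def AlmostSym (S : AddSubmonoid ℕ) : Prop :=
  ∃ F : ℤ, IsGreatest (toZ S)ᶜ F ∧
    ∀ x : ℤ, x ∉ toZ S → F - x ∈ toZ S ∨ (x ∈ PF S ∧ F - x ∈ PF S)

/-- `S` is nearly Gorenstein. -/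
def NearlyGor (S : AddSubmonoid ℕ) : Prop :=
  ∀ g ∈ minGens S, ∃ p ∈ PF S, ∀ q ∈ PF S, (g : ℤ) + p - q ∈ toZ S

/-- The defining ideal: power series killed by the substitution `x_i ↦ t ^ g i`. -/
noncomputable def defIdeal (k : Type u) [Field k] {e : ℕ} (g : Fin e → ℕ) :
    Ideal (MvPowerSeries (Fin e) k) :=
  Ideal.span {f | MvPowerSeries.subst (fun i => (PowerSeries.X : PowerSeries k) ^ g i) f = 0}

/-- The Betti number `dim_k Tor_i^A (A / I, k)`, where `A = k[[x_1, …, x_e]]`, `I` is the defining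
ideal and `k` is the residue field of `A`. -/
noncomputable def betti (k : Type u) [Field k] {e : ℕ} (g : Fin e → ℕ) (i : ℕ) : Cardinal.{u} :=
  Module.rank k ((ModuleCat.restrictScalars (algebraMap k (MvPowerSeries (Fin e) k))).obj
    (((Tor' (ModuleCat.{u} (MvPowerSeries (Fin e) k)) i).obj
      (ModuleCat.of (MvPowerSeries (Fin e) k) (MvPowerSeries (Fin e) k ⧸ defIdeal k g))).obj
      (ModuleCat.of (MvPowerSeries (Fin e) k)
        (IsLocalRing.ResidueField (MvPowerSeries (Fin e) k)))))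

lemma res_eq {k : Type u} [Field k] (c : MvPowerSeries (Fin 8) k) :
    IsLocalRing.residue _ c =
      IsLocalRing.residue _ (MvPowerSeries.C (MvPowerSeries.constantCoeff c)) := by
  rw [← sub_eq_zero, ← map_sub, IsLocalRing.residue_eq_zero_iff, IsLocalRing.mem_maximalIdeal,
    mem_nonunits_iff, MvPowerSeries.isUnit_iff_constantCoeff]
  simp

lemma mem_def {k : Type u} [Field k] {n : ℕ} (hn : 2 ≤ n) {f : MvPowerSeries (Fin 8) k}
    (hf : f ∈ defIdeal k (gen n)) : MvPowerSeries.subst (sa k n) f = 0 := by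
  have : defIdeal k (gen n) ≤ RingHom.ker (MvPowerSeries.substAlgHom (R := k) (sa_has (k := k) hn)) := by
    apply Ideal.span_le.2
    intro f hf
    show MvPowerSeries.substAlgHom (R := k) (sa_has (k := k) hn) f = 0
    rw [MvPowerSeries.substAlgHom_apply]; exact hf
  have h2 : MvPowerSeries.substAlgHom (R := k) (sa_has (k := k) hn) f = 0 := this hf
  rwa [MvPowerSeries.substAlgHom_apply] at h2

lemma cc_zero {k : Type u} [Field k] {n : ℕ} (hn : 2 ≤ n) {f : MvPowerSeries (Fin 8) k}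
    (hf : MvPowerSeries.subst (sa k n) f = 0) : MvPowerSeries.constantCoeff f = 0 := by
  have h1 : MvPowerSeries.constantCoeff (MvPowerSeries.subst (sa k n)
      (f - algebraMap k _ (MvPowerSeries.constantCoeff f))) = 0 :=
    MvPowerSeries.constantCoeff_subst_eq_zero (sa_has hn) (sa_cc hn)
      (by simp [MvPowerSeries.algebraMap_apply])
  rw [← MvPowerSeries.substAlgHom_apply (sa_has hn), map_sub, AlgHom.commutes, map_sub, sub_eq_zero,
    MvPowerSeries.substAlgHom_apply, hf, MvPowerSeries.algebraMap_apply,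
    MvPowerSeries.constantCoeff_C] at h1
  simpa using h1.symm

/-- the linear functional detecting the relation of degree `deg n l` -/
noncomputable def phi (k : Type u) [Field k] {n l : ℕ} (hn : 2 ≤ n) (hl : l ≤ n) :
    defIdeal k (gen n) →ₗ[MvPowerSeries (Fin 8) k]
      IsLocalRing.ResidueField (MvPowerSeries (Fin 8) k) where
  toFun f := IsLocalRing.residue _ (MvPowerSeries.C
    (PowerSeries.coeff (deg n l) (MvPowerSeries.subst (sb k n) (f : MvPowerSeries (Fin 8) k))))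
  map_add' f g := by
    rw [Submodule.coe_add, MvPowerSeries.subst_add (sb_has hn), map_add, map_add, map_add]
  map_smul' c f := by
    rw [Submodule.coe_smul, smul_eq_mul, phi_mul hn hl c f (mem_def hn f.2), map_mul, map_mul,
      ← res_eq, RingHom.id_apply, Algebra.smul_def, IsLocalRing.ResidueField.algebraMap_eq]

lemma betti_ge (k : Type u) [Field k] {n : ℕ} (hn : 2 ≤ n) :
    (n : Cardinal.{u}) ≤ betti k (gen n) 1 := by
  obtain ⟨ψ, hψ⟩ := tor_surj (defIdeal k (gen n))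
    (ModuleCat.of (MvPowerSeries (Fin 8) k) (IsLocalRing.ResidueField (MvPowerSeries (Fin 8) k)))
    (by
      intro f hf c
      show f • c = (0 : IsLocalRing.ResidueField (MvPowerSeries (Fin 8) k))
      rw [Algebra.smul_def, IsLocalRing.ResidueField.algebraMap_eq, res_eq,
        cc_zero hn (mem_def hn hf)]
      simp)
  let B : Fin n → defIdeal k (gen n) := fun l =>
    ⟨bin k n l, Ideal.subset_span (bin_a hn l.2.le)⟩
  choose t ht using fun l : Fin n => hψ (B l ⊗ₜ[MvPowerSeries (Fin 8) k]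
    (1 : IsLocalRing.ResidueField (MvPowerSeries (Fin 8) k)))
  unfold betti
  rw [Module.le_rank_iff]
  refine ⟨t, Fintype.linearIndependent_iff.2 fun a ha l => ?_⟩
  let Φ := (LinearMap.mul' (MvPowerSeries (Fin 8) k)
    (IsLocalRing.ResidueField (MvPowerSeries (Fin 8) k))) ∘ₗ
      (TensorProduct.map (phi k hn l.2.le) LinearMap.id) ∘ₗ ψ.hom
  have h1 : ∀ l', Φ (t l') = if l' = l then 1 else 0 := by
    intro l'
    show LinearMap.mul' _ _ (TensorProduct.map (phi k hn l.2.le) LinearMap.id (ψ (t l'))) = _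
    rw [ht, TensorProduct.map_tmul, LinearMap.mul'_apply, LinearMap.id_apply, mul_one]
    show IsLocalRing.residue _ (MvPowerSeries.C
      (PowerSeries.coeff (deg n l) (MvPowerSeries.subst (sb k n) (bin k n l')))) = _
    rw [bin_b hn, PowerSeries.coeff_X_pow]
    by_cases h : l' = l
    · subst h; simp
    · rw [if_neg h, if_neg]
      · simp
      · intro h2
        exact h (Fin.ext (deg_inj hn l.2.le l'.2.le h2).symm)
  have h2 : ∑ l', algebraMap k (MvPowerSeries (Fin 8) k) (a l') • t l' = 0 := ha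
  have h3 := congrArg Φ h2
  simp only [map_sum, map_smul, h1, map_zero, smul_ite, smul_zero, Finset.sum_ite_eq',
    Finset.mem_univ, if_true] at h3
  rw [Algebra.smul_def, IsLocalRing.ResidueField.algebraMap_eq, mul_one,
    IsLocalRing.residue_eq_zero_iff, IsLocalRing.mem_maximalIdeal,
    mem_nonunits_iff, MvPowerSeries.isUnit_iff_constantCoeff] at h3
  simpa [MvPowerSeries.algebraMap_apply] using h3

theorem result (k : Type u) [Field k] (N : ℕ) : ∃ (S : AddSubmonoid ℕ) (g : Fin 8 → ℕ),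
    (S : Set ℕ)ᶜ.Finite ∧ StrictMono g ∧ Set.range g = minGens S ∧ AlmostSym S ∧ NearlyGor S ∧
      (N : Cardinal.{u}) ≤ betti k g 1 := by
  have hn : 2 ≤ N + 2 := by omega
  have hr : 0 ≤ N + 2 := by omega
  have hn' : (2:ℤ) ≤ ((N + 2 : ℕ) : ℤ) := by exact_mod_cast hn
  have hr' : ((0:ℕ):ℤ) ≤ ((N + 2 : ℕ) : ℤ) := by exact_mod_cast hr
  have hZ : ∀ x, x ∈ toZ (HN (N+2) 0 hn hr) ↔ InH ((N + 2 : ℕ) : ℤ) ((0:ℕ):ℤ) x :=
    fun x => mem_img
  have hP := PH_not hn' hr'
  have hPF : PF (HN (N+2) 0 hn hr) = {x : ℤ | ¬ InH ((N + 2 : ℕ) : ℤ) ((0:ℕ):ℤ) x ∧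
      ∀ s, InH ((N + 2 : ℕ) : ℤ) ((0:ℕ):ℤ) s → s ≠ 0 →
        InH ((N + 2 : ℕ) : ℤ) ((0:ℕ):ℤ) (x + s)} := by
    ext x
    simp only [PF, Set.mem_ofPred_eq, hZ]
    refine and_congr Iff.rfl ⟨fun h s h1 h2 => ?_, fun h s h1 h2 => ?_⟩
    · lift s to ℕ using h1.nonneg hn'
      exact h s h1 (by exact_mod_cast h2)
    · exact h s h1 (by exact_mod_cast h2)
  refine ⟨HN (N+2) 0 hn hr, gen (N+2), HN_cofinite, gen_mono hn,
    (gen_range hn).trans HN_atoms.symm, ?_, ?_, ?_⟩
  · refine ⟨PP ((N + 2 : ℕ) : ℤ), ⟨?_, ?_⟩, ?_⟩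
    · rw [Set.mem_compl_iff, hZ]; exact hP
    · intro y hy
      rw [Set.mem_compl_iff, hZ] at hy
      by_contra hc
      exact hy (Or.inl (big hn' (by omega)))
    · intro x hx
      rw [hZ] at hx
      by_cases h : InH ((N + 2 : ℕ) : ℤ) ((0:ℕ):ℤ) (PP ((N + 2 : ℕ) : ℤ) - x)
      · exact Or.inl ((hZ _).2 h)
      · right
        rw [hPF]
        exact ⟨⟨hx, fun s h1 h2 => as_core hn' hr' hx h h1 h2⟩,
          ⟨h, fun s h1 h2 => as_core hn' hr' h (by rwa [sub_sub_cancel]) h1 h2⟩⟩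
  · rintro g ⟨hg, hg0, -⟩
    have hg' : InH ((N + 2 : ℕ) : ℤ) ((0:ℕ):ℤ) g := hg
    refine ⟨PP ((N + 2 : ℕ) : ℤ), ?_, fun q hq => ?_⟩
    · rw [hPF]
      refine ⟨hP, fun s h1 h2 => Or.inl (big hn' ?_)⟩
      have := h1.nonneg hn'
      omega
    · rw [hPF] at hq
      rw [hZ, show (g:ℤ) + PP ((N + 2 : ℕ) : ℤ) - q = (PP ((N + 2 : ℕ) : ℤ) - q) + g by ring]
      by_cases h : InH ((N + 2 : ℕ) : ℤ) ((0:ℕ):ℤ) (PP ((N + 2 : ℕ) : ℤ) - q)
      · exact h.add hn' hr' hg'
      · exact as_core hn' hr' h (by rw [sub_sub_cancel]; exact hq.1) hg' (by exact_mod_cast hg0)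
  · exact le_trans (by exact_mod_cast (by omega : N ≤ N + 2)) (betti_ge k hn)

end Pool.Agent.Results.MP_36a309_al.BettiUnbounded
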